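import Mathlib
import Pool.Agent.Lib.helper31.PeriodEx

set_option autoImplicit false

open Pool.Agent.Lib.helper31.Period0 TensorProduct

namespace Pool.Agent.Results.MP_290158_ag.FiniteMonodromy

/-- Evaluation at a complex point of a function on the base change of `Spec A` to `Qb`. -/
noncomputable def evBar {A : Type} [CommRing A] [Algebra ℚ A] (t : Pt ℚ A) : Qb ⊗[ℚ] A →+* ℂ :=
  (Algebra.TensorProduct.lift (algebraicClosure ℚ ℂ).val t.hom fun _ _ => Commute.all _ _ :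
    Qb ⊗[ℚ] A →ₐ[ℚ] ℂ)

/-- The Zariski closure over the algebraic numbers of a subset of `S(ℂ) × GL n ℂ`, where `S` has
the model `Spec A` over `ℚ`. -/
def zar {A : Type} [CommRing A] [Algebra ℚ A] {n : ℕ} (G : Set (Pt ℚ A × GL (Fin n) ℂ)) :
    Set (Pt ℚ A × GL (Fin n) ℂ) :=
  {z | ∀ F : MvPolynomial (Fin n × Fin n) (Qb ⊗[ℚ] A),
    (∀ w ∈ G, MvPolynomial.eval₂ (evBar w.1) (fun ij => w.2.val ij.1 ij.2) F = 0) →
    MvPolynomial.eval₂ (evBar z.1) (fun ij => z.2.val ij.1 ij.2) F = 0}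

/-- The field of definition of a point. -/
noncomputable def kappa {A : Type} [CommRing A] [Algebra ℚ A] (s : Pt ℚ A) :
    IntermediateField ℚ ℂ := IntermediateField.adjoin ℚ (Set.range s.hom)

theorem evBar_tmul {A : Type} [CommRing A] [Algebra ℚ A] (t : Pt ℚ A) (c : Qb) (g : A) :
    evBar t (c ⊗ₜ g) = (c : ℂ) * t.hom g := rfl

open Pool.Agent.Lib.helper31 SqCover PeriodEx in
theorem evBar_diff (r : Qb ⊗[ℚ] A ℚ) :
    DifferentiableOn ℂ (fun a => evBar (spt ℚ (a ^ 2)) r) {0}ᶜ := by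
  induction r using TensorProduct.induction_on with
  | zero => simp only [map_zero]; exact differentiableOn_const _
  | tmul c g => simp only [evBar_tmul]; exact (sp_sq_diff ℚ g).const_mul (c : ℂ)
  | add f g hf hg => simp only [map_add]; exact hf.add hg

open Pool.Agent.Lib.helper31 SqCover PeriodEx LaurentPolynomial in
theorem result : ∃ (A B : Type) (_ : CommRing A) (_ : CommRing B) (_ : Algebra ℚ A)
    (_ : Algebra ℚ B) (_ : Algebra A B) (_ : IsScalarTower ℚ A B),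
    IsDomain (Qb ⊗[ℚ] A) ∧ IsDomain (Qb ⊗[ℚ] B) ∧ Algebra.Smooth ℚ A ∧ Algebra.Etale A B ∧
    Module.Finite A B ∧
    ∃ (n : ℕ) (b : Module.Basis (Fin n) A (H0 A B)) (U : Set (Pt ℚ A))
      (v : Fin n → Pt ℚ B → ℤ),
      IsOpen U ∧ IsConnected U ∧ IsBetti U v ∧ (∀ t ∈ U, ∃ Q, IsPeriod b v t Q) ∧
      ∃ W : Set (Pt ℚ A), W.Infinite ∧ W ⊆ U ∧ ∀ s ∈ W, s.IsAlg ∧
        ∀ e : ℤ, e = 1 ∨ e = -1 → ∀ G : Set (Pt ℚ A × GL (Fin n) ℂ),
          (∀ t ∈ U, ∀ Q, IsPeriod b v t Q → (t, Q ^ e) ∈ G) →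
          ∀ P, IsPeriod b v s P →
            ∃ F : MvPolynomial (Fin n × Fin n) (kappa s), F.totalDegree ≤ 1 ∧
              (∀ Q ∈ zarPt (P ^ e), MvPolynomial.aeval (fun ij => Q.val ij.1 ij.2) F = 0) ∧
              ∃ Q, (s, Q) ∈ zar G ∧ MvPolynomial.aeval (fun ij => Q.val ij.1 ij.2) F ≠ 0 := by
  refine ⟨A ℚ, B ℚ, inferInstance, inferInstance, inferInstance, inferInstance, inferInstance,
    inferInstance, domain_tensorA ℚ Qb, domain_tensorB ℚ Qb, smoothA ℚ, etale ℚ, inferInstance, 2,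
    b ℚ, U ℚ, v ℚ, U_open ℚ, U_conn ℚ, betti ℚ, exists_period ℚ,
    Set.range fun m : ℕ => spt ℚ (((m : ℂ) + 1) ^ 2), ?_, ?_, ?_⟩
  · apply Set.infinite_range_of_injective
    intro m m' hm
    have h := congrArg (fun s : Pt ℚ (A ℚ) => s.hom (T 1)) hm
    change sp ℚ _ (T 1) = sp ℚ _ (T 1) at h
    rw [sp_T ℚ _ (pow_ne_zero 2 (Nat.cast_add_one_ne_zero m)),
      sp_T ℚ _ (pow_ne_zero 2 (Nat.cast_add_one_ne_zero m'))] at h
    have h2 : (m + 1) ^ 2 = (m' + 1) ^ 2 := by exact_mod_cast h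
    have := Nat.pow_left_injective (by norm_num : 2 ≠ 0) h2
    omega
  · rintro _ ⟨m, rfl⟩
    change 0 < Complex.re (sp ℚ _ (T 1))
    rw [sp_T ℚ _ (pow_ne_zero 2 (Nat.cast_add_one_ne_zero m))]
    have : (((m : ℂ) + 1) ^ 2) = (((m + 1) ^ 2 : ℕ) : ℂ) := by push_cast; ring
    rw [this, Complex.natCast_re]
    positivity
  · rintro _ ⟨m, rfl⟩
    set a : ℂ := (m : ℂ) + 1 with haa
    have ha0 : a ≠ 0 := Nat.cast_add_one_ne_zero m
    have ha : 0 < a.re := by simp [haa]; positivity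
    have hmem : ∀ K : IntermediateField ℚ ℂ, a ∈ K := fun K => add_mem (natCast_mem K m) (one_mem K)
    have h : a ^ 2 = (spt ℚ (a ^ 2)).hom (T 1) := (sp_T ℚ _ (pow_ne_zero 2 ha0)).symm
    have h' : (-a) ^ 2 = (spt ℚ (a ^ 2)).hom (T 1) := by rw [← h]; ring
    refine ⟨sp_alg ℚ (fun r => isAlgebraic_algebraMap r) _ (pow_ne_zero 2 ha0)
      (mem_algebraicClosure_iff.mp (pow_mem (hmem _) 2)), ?_⟩
    intro e he G hG P hP
    obtain rfl := (period_iff ℚ _ a ha ha0 h _).mp hP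
    have hN : N e a 1 1 ∈ kappa (spt ℚ (a ^ 2)) := by
      unfold N
      split_ifs
      · simpa using hmem _
      · simp only [Matrix.of_apply, Matrix.cons_val', Matrix.cons_val_one, Matrix.cons_val_fin_one]
        exact div_mem (neg_mem (one_mem _)) (mul_mem (ofNat_mem _ 2) (hmem _))
    refine ⟨MvPolynomial.X (1, 1) - MvPolynomial.C ⟨_, hN⟩, ?_, ?_,
      M (-a) (neg_ne_zero.mpr ha0) ^ e, ?_, ?_⟩
    · refine (MvPolynomial.totalDegree_sub _ _).trans ?_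
      simp [MvPolynomial.totalDegree_X]
    · intro Q hQ
      have := zarPt_entry _ _ hQ 1 1 (by rw [M_zpow e he]; exact N_alg e a (hmem _))
      rw [M_zpow e he] at this
      simp [this]
    · intro F hF
      exact vanish ℚ (R := Qb ⊗[ℚ] A ℚ) evBar evBar_diff e he F
        (fun t ht Q hQ => hF (t, Q ^ e) (hG t ht Q hQ)) _ (-a) _ h'
    · rw [M_zpow e he]
      simp only [map_sub, MvPolynomial.aeval_X, MvPolynomial.aeval_C]
      exact sub_ne_zero.mpr (N_ne e a ha0)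

end Pool.Agent.Results.MP_290158_ag.FiniteMonodromy
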